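import Pool.Agent.K3h20.IA3
import Pool.Agent.H77R2.AssocLie

/-!
# The lower central series Lie ring of `IA_3` is not a free Lie ring modulo quadratic relations

`AssocLie G = ⨁_{n ≥ 0} Γ_{n+1} G / Γ_{n+2} G` is the Lie ring of the lower central series of a
group `G`, with the bracket induced by the commutator (`Pool.Agent.H77R2.AssocLie`); its summand of
index `n` is `Grd G n = Γ_{n+1} G / Γ_{n+2} G`, included by `ofL n`. `IA n` is the group of the
automorphisms of the free group of rank `n` which induce the identity on the abelianization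
(`Pool.Agent.K3h20.IA3`).

The element `w = [c, [a, b]]` of the free Lie ring on `V = IA_3 / [IA_3, IA_3]` where `a`, `b`, `c`
are the classes of `x ↦ y⁻¹ x y`, `x ↦ z⁻¹ x z` and `x ↦ x [y, z]` is a relation, since
`[c, [a, b]] = 1` holds in `IA_3`.  It does not follow from the relations of degree two: these hold
in a six-dimensional Lie ring `M` (of matrices) in which `w` is not a relation.  That they hold in `M`
is seen by means of two representations of `IA_3` in Heisenberg groups, built from the Magnus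
coefficients of degree two and three of the images of the generators.
-/

set_option autoImplicit false

namespace Pool.Agent.Results.MP_df4ecf_al.TorelliRankThree

open BurnLie
open Pool.Agent.K3h20.IA3 (IA)
open scoped commutatorElement

noncomputable section

/-- The free Lie ring on the set `X`. -/
def FreeLie (X : Type) : Type := FreeLieAlgebra ℤ X

instance (X : Type) : LieRing (FreeLie X) := FreeLieAlgebra.instLieRing ℤ X

/-- The generators of the free Lie ring. -/
def FreeLie.of {X : Type} (x : X) : FreeLie X := FreeLieAlgebra.of ℤ x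

/-- The ideal of the free Lie ring on the set `A` generated by the elements `(a + b) - a - b`. -/
def additivity (A : Type) [AddCommGroup A] : LieIdeal ℤ (FreeLie A) :=
  LieSubmodule.lieSpan ℤ (FreeLie A)
    {r | ∃ a b : A, r = FreeLie.of (a + b) - FreeLie.of a - FreeLie.of b}

/-- The free Lie ring `L[A]` on an abelian group `A`: the free Lie ring on the set `A` modulo the
ideal generated by the elements `(a + b) - a - b`. -/
def FreeLieOn (A : Type) [AddCommGroup A] : Type := FreeLie A ⧸ additivity A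

instance (A : Type) [AddCommGroup A] : LieRing (FreeLieOn A) :=
  LieSubmodule.Quotient.lieQuotientLieRing (I := additivity A)

/-- The generators of `L[A]`. -/
def gen (A : Type) [AddCommGroup A] (a : A) : FreeLieOn A :=
  LieSubmodule.Quotient.mk (N := additivity A) (FreeLie.of a)

/-- `Deg n x`: `x` lies in the component of degree `n + 1` of `L[A]`. The component of degree one
consists of the generators, the component of degree `n + 2` of the sums of brackets of a generator
and of an element of the component of degree `n + 1`. -/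
inductive Deg {A : Type} [AddCommGroup A] : ℕ → FreeLieOn A → Prop
  | gen (a : A) : Deg 0 (gen A a)
  | lie (n : ℕ) (a : A) (x : FreeLieOn A) (hx : Deg n x) : Deg (n + 1) ⁅gen A a, x⁆
  | add (n : ℕ) (x y : FreeLieOn A) (hx : Deg n x) (hy : Deg n y) : Deg n (x + y)

/-- The Lie ideal of `L[A]` generated by a set. -/
def idealOf {A : Type} [AddCommGroup A] (S : Set (FreeLieOn A)) : LieIdeal ℤ (FreeLieOn A) :=
  LieSubmodule.lieSpan ℤ (FreeLieOn A) S

/-- The Lie ring `L[A] / (S)`. -/
def Presented {A : Type} [AddCommGroup A] (S : Set (FreeLieOn A)) : Type :=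
  FreeLieOn A ⧸ idealOf S

instance {A : Type} [AddCommGroup A] (S : Set (FreeLieOn A)) : LieRing (Presented S) :=
  LieSubmodule.Quotient.lieQuotientLieRing (I := idealOf S)

/-- The quotient map `L[A] → L[A] / (S)`. -/
def toPresented {A : Type} [AddCommGroup A] (S : Set (FreeLieOn A)) (x : FreeLieOn A) :
    Presented S :=
  LieSubmodule.Quotient.mk (N := idealOf S) x

/-- `f` is a homomorphism of Lie rings. -/
structure IsLieRingHom {L M : Type} [LieRing L] [LieRing M] (f : L → M) : Prop where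
  map_add : ∀ x y, f (x + y) = f x + f y
  map_lie : ∀ x y, f ⁅x, y⁆ = ⁅f x, f y⁆

/-- The component `Γ_{n+1} G / Γ_{n+2} G` of degree `n + 1` of the Lie ring of the lower central
series of `G`. -/
def compE (G : Type) [Group G] (n : ℕ) : Set (AssocLie G) := Set.range (ofL n)

/-- `V = G / [G, G]`, written additively. -/
def V (G : Type) [Group G] : Type := Grd G 0

instance (G : Type) [Group G] : AddCommGroup (V G) := instGrd 0

/-- The inclusion of `V = G / [G, G]` in the Lie ring of the lower central series of `G`. -/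
def incl (G : Type) [Group G] (v : V G) : AssocLie G := ofL 0 v

/-- `E_0^*(G)` is a free Lie algebra modulo quadratic relations: for a set `S` of elements of degree
two of `L[V]`, `V = G / [G, G]`, there is an isomorphism `e` of Lie rings of `L[V] / (S)` onto the
Lie ring of the lower central series of `G` which maps the component of degree `n + 1` onto the
component of degree `n + 1`, for all `n ≥ 0`. -/
def FreeModQuadratic (G : Type) [Group G] : Prop :=
  ∃ S : Set (FreeLieOn (V G)), (∀ s ∈ S, Deg 1 s) ∧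
    ∃ e : Presented S → AssocLie G, IsLieRingHom e ∧ Function.Bijective e ∧
      ∀ n : ℕ, {y | ∃ x, Deg n x ∧ y = e (toPresented S x)} = compE G n

/-- The kernel of the natural homomorphism of Lie rings `p : L[V] → E_0^*(G)`, the identity on
`V = G / [G, G]`, is generated as a Lie ideal by its elements of degree two. -/
def KernelInDegreeTwo (G : Type) [Group G] : Prop :=
  ∀ p : FreeLieOn (V G) → AssocLie G, IsLieRingHom p → (∀ v, p (gen (V G) v) = incl G v) →
    ∀ x, p x = 0 ↔ x ∈ idealOf {s | Deg 1 s ∧ p s = 0}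

/-! ### The universal property of `L[A]` -/

section lift

variable {A : Type} [AddCommGroup A] {M : Type} [LieRing M]

/-- the universal property of the free Lie ring -/
def FreeLie.lift {X : Type} (f : X → M) : FreeLie X →ₗ⁅ℤ⁆ M where
  toFun u := FreeLieAlgebra.lift ℤ f (show FreeLieAlgebra ℤ X from u)
  map_add' _ _ := map_add (FreeLieAlgebra.lift ℤ f) _ _
  map_smul' n u := map_zsmul (FreeLieAlgebra.lift ℤ f) n (show FreeLieAlgebra ℤ X from u)
  map_lie' {_ _} := LieHom.map_lie (FreeLieAlgebra.lift ℤ f) _ _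

theorem FreeLie.lift_of {X : Type} (f : X → M) (x : X) : FreeLie.lift f (FreeLie.of x) = f x :=
  FreeLieAlgebra.lift_of_apply f x

/-- the homomorphism of Lie rings `L[A] → M` that extends an additive map `A → M` -/
def liftL (φ : A →+ M) : FreeLieOn A →ₗ⁅ℤ⁆ M :=
  { Submodule.liftQ (additivity A).toSubmodule ((FreeLie.lift (φ : A → M)) : FreeLie A →ₗ[ℤ] M) (by
      have h : additivity A ≤ (FreeLie.lift (φ : A → M)).ker := by
        unfold additivity
        rw [LieSubmodule.lieSpan_le]
        rintro r ⟨a, b, rfl⟩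
        simp [LieHom.mem_ker, FreeLie.lift_of]
      exact h) with
    map_lie' := by
      intro x y
      induction x using Submodule.Quotient.induction_on with | _ x
      induction y using Submodule.Quotient.induction_on with | _ y
      exact LieHom.map_lie (FreeLie.lift (φ : A → M)) x y }

theorem liftL_gen (φ : A →+ M) (a : A) : liftL φ (gen A a) = φ a :=
  FreeLie.lift_of _ _

theorem liftL_add (φ : A →+ M) (x y : FreeLieOn A) : liftL φ (x + y) = liftL φ x + liftL φ y :=
  map_add _ _ _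

theorem gen_add (a b : A) : gen A (a + b) = gen A a + gen A b := by
  have h : LieSubmodule.Quotient.mk (N := additivity A)
      (FreeLie.of (a + b) - FreeLie.of a - FreeLie.of b) = 0 := by
    rw [LieSubmodule.Quotient.mk_eq_zero']
    exact LieSubmodule.subset_lieSpan ⟨a, b, rfl⟩
  have h2 : gen A (a + b) - gen A a - gen A b = 0 := h
  rw [sub_sub, sub_eq_zero] at h2
  exact h2

end lift

/-! ### Additive functions on the first two components -/

section functions

variable {G : Type} [Group G]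

/-- an additive function on `Γ_{n+1} / Γ_{n+2}` -/
def onGrd (n : ℕ) {B : Type} [AddCommGroup B] (φ : lcs G n →* Multiplicative B)
    (h : ∀ g : lcs G n, (g : G) ∈ lcs G (n + 1) → φ g = 1) : Grd G n →+ B :=
  MonoidHom.toAdditiveLeft (QuotientGroup.lift ((lcs G (n + 1)).subgroupOf (lcs G n)) φ
    (fun g hg => h g (Subgroup.mem_subgroupOf.1 hg)))

theorem onGrd_mk (n : ℕ) {B : Type} [AddCommGroup B] (φ : lcs G n →* Multiplicative B)
    (h : ∀ g : lcs G n, (g : G) ∈ lcs G (n + 1) → φ g = 1) (g : lcs G n) :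
    onGrd n φ h (grMk n g) = Multiplicative.toAdd (φ g) := rfl

/-- an additive function on `G` vanishes on commutators -/
theorem add_vanish {φ : G → ℤ} (hφ : ∀ g h, φ (g * h) = φ g + φ h) :
    ∀ g ∈ lcs G 1, φ g = 0 := by
  have h1 : φ 1 = 0 := by have := hφ 1 1; rw [mul_one] at this; omega
  let Φ : G →* Multiplicative ℤ :=
    { toFun := fun g => Multiplicative.ofAdd (φ g)
      map_one' := by rw [h1]; rfl
      map_mul' := fun g h => by rw [hφ]; rfl }
  have h2 : lcs G 1 ≤ Φ.ker := by
    rw [lcs, Subgroup.lowerCentralSeries_succ, Subgroup.lowerCentralSeries_zero]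
    rw [Subgroup.commutator_le]
    intro a _ b _
    rw [MonoidHom.mem_ker, commutatorElement_def, map_mul, map_mul, map_mul, map_inv, map_inv]
    simp
  intro g hg
  have := h2 hg
  exact Multiplicative.ofAdd.injective this

/-- the additive function on `Γ_1 / Γ_2` given by an additive function on `G` -/
def fun0 (φ : G → ℤ) (hφ : ∀ g h, φ (g * h) = φ g + φ h) : Grd G 0 →+ ℤ :=
  onGrd 0
    { toFun := fun g => Multiplicative.ofAdd (φ g)
      map_one' := by
        have h1 : φ 1 = 0 := by have := hφ 1 1; rw [mul_one] at this; omega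
        change Multiplicative.ofAdd (φ 1) = 1
        rw [h1]; rfl
      map_mul' := fun g h => by
        change Multiplicative.ofAdd (φ (g * h)) = _
        rw [hφ]; rfl }
    (fun g hg => by
      change Multiplicative.ofAdd (φ g) = 1
      rw [add_vanish hφ g hg]; rfl)

theorem fun0_mk (φ : G → ℤ) (hφ : ∀ g h, φ (g * h) = φ g + φ h) (g : lcs G 0) :
    fun0 φ hφ (grMk 0 g) = φ g := rfl

section cocycle

variable {α β f : G → ℤ} (hα : ∀ g h, α (g * h) = α g + α h) (hβ : ∀ g h, β (g * h) = β g + β h)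
  (hf : ∀ g h, f (g * h) = f g + f h + α g * β h)

include hα in
theorem fa_one : α 1 = 0 := by have := hα 1 1; rw [mul_one] at this; omega

include hα in
theorem fa_inv (g : G) : α g⁻¹ = - α g := by
  have := hα g g⁻¹; rw [mul_inv_cancel, fa_one hα] at this; omega

include hα hf in
theorem ff_one : f 1 = 0 := by
  have := hf 1 1
  rw [mul_one, fa_one hα] at this
  omega

include hα hβ hf in
theorem ff_inv (g : G) : f g⁻¹ = - f g + α g * β g := by
  have := hf g g⁻¹
  rw [mul_inv_cancel, ff_one hα hf, fa_inv hβ] at this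
  linarith

include hα hβ hf in
theorem ff_comm (g h : G) : f ⁅g, h⁆ = α g * β h - α h * β g := by
  rw [commutatorElement_def]
  simp only [hf, hα, ff_inv hα hβ hf, fa_inv hα, fa_inv hβ]
  ring

include hα hβ hf in
theorem ff_vanish : ∀ g ∈ lcs G 2, f g = 0 := by
  have hA := add_vanish hα
  have hB := add_vanish hβ
  let K : Subgroup G :=
    { carrier := {g | g ∈ lcs G 1 ∧ f g = 0}
      one_mem' := ⟨one_mem _, ff_one hα hf⟩
      mul_mem' := fun {a b} ha hb => ⟨mul_mem ha.1 hb.1, by
        rw [hf, ha.2, hb.2, hA a ha.1]; ring⟩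
      inv_mem' := fun {a} ha => ⟨inv_mem ha.1, by
        rw [ff_inv hα hβ hf, ha.2, hA a ha.1]; ring⟩ }
  have h2 : lcs G 2 ≤ K := by
    rw [lcs, Subgroup.lowerCentralSeries_succ, Subgroup.commutator_le]
    intro a ha b hb
    refine ⟨?_, ?_⟩
    · exact lcs_anti (by omega) (lcs_comm_mem (m := 1) (n := 0) ha (Subgroup.mem_top b))
    · rw [ff_comm hα hβ hf, hA a ha, hB a ha]; ring
  intro g hg
  exact (h2 hg).2

include hα hβ hf in
/-- the additive function on `Γ_2 / Γ_3` given by a representation in a Heisenberg group -/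
def fun1 : Grd G 1 →+ ℤ :=
  onGrd 1
    { toFun := fun g => Multiplicative.ofAdd (f g)
      map_one' := by
        change Multiplicative.ofAdd (f 1) = 1
        rw [ff_one hα hf]; rfl
      map_mul' := fun g h => by
        change Multiplicative.ofAdd (f (g * h)) = _
        rw [hf, add_vanish hα g g.2, zero_mul, add_zero]; rfl }
    (fun g hg => by
      change Multiplicative.ofAdd (f g) = 1
      rw [ff_vanish hα hβ hf g hg]; rfl)

theorem fun1_br (a b : Grd G 0) : fun1 hα hβ hf (grBr 0 0 a b) =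
    fun0 α hα a * fun0 β hβ b - fun0 α hα b * fun0 β hβ a := by
  obtain ⟨g, rfl⟩ := grMk_surj 0 a
  obtain ⟨h, rfl⟩ := grMk_surj 0 b
  rw [grBr_mk]
  exact ff_comm hα hβ hf g h

end cocycle

end functions

/-! ### The Lie ring of matrices -/

section matrices

attribute [local instance 100] LieRing.ofAssociativeRing

/-- matrices -/
abbrev Mt : Type := Matrix (Fin 5) (Fin 5) ℤ

/-- `a` -/
def ma : Mt := !![0,0,0,0,0; 1,0,0,0,0; 0,0,0,0,0; 0,0,1,0,0; 0,0,0,0,0]
/-- `b` -/
def mb : Mt := !![0,0,0,0,1; 0,0,0,0,0; 0,0,0,0,0; 0,0,0,0,0; 0,0,0,0,0]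
/-- `c` -/
def mc : Mt := !![0,0,0,0,0; 0,0,0,0,0; 1,0,0,0,0; 0,1,0,0,0; 0,0,0,0,0]
/-- `[a, b]` -/
def mab : Mt := !![0,0,0,0,0; 0,0,0,0,1; 0,0,0,0,0; 0,0,0,0,0; 0,0,0,0,0]
/-- `[c, b]` -/
def mcb : Mt := !![0,0,0,0,0; 0,0,0,0,0; 0,0,0,0,1; 0,0,0,0,0; 0,0,0,0,0]

/-- a general element of degree one -/
def m1 (p q r : ℤ) : Mt := p • ma + q • mb + r • mc

theorem m1_lie (p q r p' q' r' : ℤ) :
    ⁅m1 p q r, m1 p' q' r'⁆ = (p * q' - p' * q) • mab + (r * q' - r' * q) • mcb := by
  rw [Ring.lie_def]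
  ext i j
  fin_cases i <;> fin_cases j <;>
    (simp [m1, ma, mb, mc, mab, mcb]; try ring)

theorem triple_ne : ⁅m1 0 0 1, ⁅m1 1 0 0, m1 0 1 0⁆⁆ ≠ (0 : Mt) := by
  rw [m1_lie]
  intro h
  have h2 := congrFun (congrFun h 3) 4
  revert h2
  rw [Ring.lie_def]
  simp [m1, ma, mb, mc, mab, mcb]

theorem m1_add (p q r p' q' r' : ℤ) : m1 (p + p') (q + q') (r + r') = m1 p q r + m1 p' q' r' := by
  simp only [m1, add_smul]
  abel

theorem m1_zero : m1 0 0 0 = 0 := by simp [m1]

end matrices

/-! ### The main argument -/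

theorem gen_zero (A : Type) [AddCommGroup A] : gen A 0 = 0 := by
  have h := gen_add (0 : A) 0
  rw [add_zero] at h
  exact left_eq_add.1 h

theorem gen_neg {A : Type} [AddCommGroup A] (a : A) : gen A (-a) = - gen A a := by
  have h := gen_add a (-a)
  rw [add_neg_cancel, gen_zero] at h
  exact (neg_eq_of_add_eq_zero_right h.symm).symm

theorem mem_deg_zero {A : Type} [AddCommGroup A] {x : FreeLieOn A} (hx : Deg 0 x) :
    ∃ a : A, x = gen A a := by
  generalize hn : 0 = n at hx
  induction hx with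
  | gen a => exact ⟨a, rfl⟩
  | lie n a x hx => omega
  | add n x y _ _ hx hy =>
    obtain ⟨a, rfl⟩ := hx hn
    obtain ⟨b, rfl⟩ := hy hn
    exact ⟨a + b, (gen_add a b).symm⟩

section core

attribute [local instance 100] LieRing.ofAssociativeRing

open Pool.Agent.K3h20.IA3 (A Ga C f mu A_mul Ga_mul C_mul f_mul mu_mul gY gZ gC values_Y values_Z
  values_C relation)

/-- the map in degree one -/
def toM : V (IA 3) →+ Mt :=
  AddMonoidHom.mk' (fun v => m1 (fun0 A A_mul v) (fun0 Ga Ga_mul v) (fun0 C C_mul v))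
    (fun v w => by
      have h : ∀ φ : Grd (IA 3) 0 →+ ℤ, φ (v + w) = φ v + φ w := fun φ => map_add φ _ _
      rw [h, h, h]; exact m1_add _ _ _ _ _ _)

theorem toM_apply (v : V (IA 3)) :
    toM v = m1 (fun0 A A_mul v) (fun0 Ga Ga_mul v) (fun0 C C_mul v) := rfl

/-- the map in degree two -/
def toM2 : Grd (IA 3) 1 →+ Mt :=
  AddMonoidHom.mk' (fun v => (fun1 A_mul Ga_mul f_mul v) • mab + (fun1 C_mul Ga_mul mu_mul v) • mcb)
    (fun v w => by simp only [map_add, add_smul]; abel)

theorem toM2_apply (v : Grd (IA 3) 1) : toM2 v =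
    (fun1 A_mul Ga_mul f_mul v) • mab + (fun1 C_mul Ga_mul mu_mul v) • mcb := rfl

theorem toM2_br (a b : V (IA 3)) : toM2 (grBr (G := IA 3) 0 0 a b) = ⁅toM a, toM b⁆ := by
  have h1 := fun1_br A_mul Ga_mul f_mul a b
  have h2 := fun1_br C_mul Ga_mul mu_mul a b
  rw [toM2_apply, toM_apply, toM_apply, m1_lie]
  exact congrArg₂ (fun (x y : ℤ) => x • mab + y • mcb) h1 h2

theorem toM_mk (g : lcs (IA 3) 0) : toM (grMk 0 g : Grd (IA 3) 0) = m1 (A g) (Ga g) (C g) := rfl

theorem core (p : FreeLieOn (V (IA 3)) → AssocLie (IA 3)) (hp : IsLieRingHom p)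
    (S : Set (FreeLieOn (V (IA 3)))) (hS : ∀ s ∈ S, Deg 1 s)
    (hker : ∀ x, p x = 0 → x ∈ idealOf S) (hS0 : ∀ s ∈ S, p s = 0)
    (h0 : ∀ v, ∃ w, p (gen _ v) = incl _ w)
    (h1 : ∀ w, ∃ x : FreeLieOn (V (IA 3)), Deg 0 x ∧ p x = incl _ w) :
    False := by
  choose θ hθ using h0
  have hinj : Function.Injective (incl (IA 3)) := DirectSum.of_injective 0
  have hadd : ∀ v w, incl (IA 3) (v + w) = incl _ v + incl _ w := fun v w =>
    map_add (ofL (G := IA 3) 0) v w
  have hθadd : ∀ v w, θ (v + w) = θ v + θ w := by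
    intro v w
    apply hinj
    rw [hadd, ← hθ, ← hθ, ← hθ, gen_add, hp.map_add]
  have hsurj : ∀ w, ∃ v, θ v = w := by
    intro w
    obtain ⟨x, hx, hx2⟩ := h1 w
    obtain ⟨v, rfl⟩ := mem_deg_zero hx
    exact ⟨v, hinj (by rw [← hθ, hx2])⟩
  let Θ : V (IA 3) →+ V (IA 3) := AddMonoidHom.mk' θ hθadd
  let ψ : FreeLieOn (V (IA 3)) →ₗ⁅ℤ⁆ Mt := liftL (toM.comp Θ)
  have hψ : ∀ v, ψ (gen _ v) = toM (θ v) := fun v => liftL_gen _ v
  have key : ∀ (n : ℕ) (s : FreeLieOn (V (IA 3))), Deg n s → n = 1 →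
      ∃ y : Grd (IA 3) 1, p s = ofL 1 y ∧ ψ s = toM2 y := by
    intro n s hs
    induction hs with
    | gen a => intro h; omega
    | lie n a x hx _ =>
      intro h
      obtain rfl : n = 0 := by omega
      obtain ⟨b, rfl⟩ := mem_deg_zero hx
      refine ⟨grBr 0 0 (θ a) (θ b), ?_, ?_⟩
      · rw [hp.map_lie, hθ, hθ]
        exact lieHom_of 0 0 (θ a) (θ b)
      · rw [LieHom.map_lie, hψ, hψ, toM2_br]
    | add n x y _ _ hx hy =>
      intro hn
      obtain ⟨a, ha, ha'⟩ := hx hn
      obtain ⟨b, hb, hb'⟩ := hy hn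
      exact ⟨a + b, by rw [hp.map_add, map_add, ha, hb], by rw [map_add, map_add, ha', hb']⟩
  have hle : idealOf S ≤ ψ.ker := by
    unfold idealOf
    rw [LieSubmodule.lieSpan_le]
    intro s hs
    obtain ⟨y, hy, hy'⟩ := key 1 s (hS s hs) rfl
    have hy0 : y = 0 := by
      have h2 : ofL (G := IA 3) 1 y = ofL 1 0 := by rw [← hy, hS0 s hs, map_zero]
      exact DirectSum.of_injective 1 h2
    rw [SetLike.mem_coe, LieHom.mem_ker, hy', hy0, map_zero]
  obtain ⟨a, ha⟩ := hsurj (grMk 0 ⟨gY, Subgroup.mem_top _⟩)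
  obtain ⟨b, hb⟩ := hsurj (grMk 0 ⟨gZ, Subgroup.mem_top _⟩)
  obtain ⟨c, hc⟩ := hsurj (grMk 0 ⟨gC, Subgroup.mem_top _⟩)
  have hw : p ⁅gen _ c, ⁅gen _ a, gen _ b⁆⁆ = 0 := by
    rw [hp.map_lie, hp.map_lie, hθ, hθ, hθ, ha, hb, hc]
    have e1 : ⁅incl _ (grMk 0 (⟨gY, Subgroup.mem_top _⟩ : lcs (IA 3) 0)),
        incl _ (grMk 0 (⟨gZ, Subgroup.mem_top _⟩ : lcs (IA 3) 0))⁆ =
        mkL 1 ⟨⁅gY, gZ⁆, lcs_comm_mem (m := 0) (n := 0) (Subgroup.mem_top _)
          (Subgroup.mem_top _)⟩ :=
      lieHom_mkL 0 0 (⟨gY, Subgroup.mem_top _⟩ : lcs (IA 3) 0)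
        (⟨gZ, Subgroup.mem_top _⟩ : lcs (IA 3) 0)
    rw [e1]
    have e2 := lieHom_mkL 0 1 (⟨gC, Subgroup.mem_top _⟩ : lcs (IA 3) 0)
      (⟨⁅gY, gZ⁆, lcs_comm_mem (m := 0) (n := 0) (Subgroup.mem_top _)
          (Subgroup.mem_top _)⟩ : lcs (IA 3) 1)
    refine e2.trans ?_
    rw [← mkL_one (G := IA 3) 2]
    exact mkL_congr rfl relation
  have hw2 : ψ ⁅gen _ c, ⁅gen _ a, gen _ b⁆⁆ = 0 := LieHom.mem_ker.1 (hle (hker _ hw))
  rw [LieHom.map_lie, LieHom.map_lie, hψ, hψ, hψ, ha, hb, hc] at hw2
  rw [toM_mk, toM_mk, toM_mk] at hw2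
  simp only [values_Y, values_Z, values_C] at hw2
  exact triple_ne hw2

end core

/-- `E_0^*(IA_3)` is not a free Lie algebra modulo quadratic relations; and the kernel of the natural
homomorphism `L[V] → E_0^*(IA_3)` is not generated, as an ideal, by its elements of degree two. -/
theorem result : ¬ FreeModQuadratic (IA 3) ∧ ¬ KernelInDegreeTwo (IA 3) := by
  constructor
  · rintro ⟨S, hS, e, hel, hbij, he⟩
    have he0 : e 0 = 0 := by
      have := hel.map_add 0 0
      rw [add_zero] at this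
      exact left_eq_add.1 this
    refine core (fun x => e (toPresented S x)) ⟨fun x y => ?_, fun x y => ?_⟩ S hS ?_ ?_ ?_ ?_
    · rw [← hel.map_add]; rfl
    · rw [← hel.map_lie]; rfl
    · intro x hx
      have h2 : e (toPresented S x) = e 0 := by rw [he0]; exact hx
      have := hbij.1 h2
      exact (LieSubmodule.Quotient.mk_eq_zero' (N := idealOf S)).1 this
    · intro s hs
      have : toPresented S s = 0 :=
        (LieSubmodule.Quotient.mk_eq_zero' (N := idealOf S)).2 (LieSubmodule.subset_lieSpan hs)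
      change e (toPresented S s) = 0
      rw [this, he0]
    · intro v
      have h1 : e (toPresented S (gen _ v)) ∈ compE (IA 3) 0 := by
        rw [← he 0]
        exact ⟨gen _ v, Deg.gen v, rfl⟩
      obtain ⟨w, hw⟩ := h1
      exact ⟨w, hw.symm⟩
    · intro w
      have h1 : incl (IA 3) w ∈ compE (IA 3) 0 := ⟨w, rfl⟩
      rw [← he 0] at h1
      obtain ⟨x, hx, hx2⟩ := h1
      exact ⟨x, hx, hx2.symm⟩
  · intro h
    let N : FreeLieOn (V (IA 3)) →ₗ⁅ℤ⁆ AssocLie (IA 3) :=
      liftL (show V (IA 3) →+ AssocLie (IA 3) from ofL 0)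
    have hp1 : IsLieRingHom (fun x => N x) := ⟨fun x y => map_add _ _ _, fun x y => LieHom.map_lie N x y⟩
    have hp2 : ∀ v, (fun x => N x) (gen (V (IA 3)) v) = incl _ v := fun v => liftL_gen _ v
    have h2 := h (fun x => N x) hp1 hp2
    exact core (fun x => N x) hp1 {s | Deg 1 s ∧ N s = 0}
      (fun x hx => hx.1) (fun x hx => (h2 x).1 hx) (fun s hs => hs.2) (fun v => ⟨v, hp2 v⟩)
      (fun w => ⟨gen _ w, Deg.gen w, hp2 w⟩)

end

end Pool.Agent.Results.MP_df4ecf_al.TorelliRankThree
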